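import Mathlib
import Pool.Agent.H31.Spec

set_option autoImplicit false
open Matrix Polynomial Finset

namespace Pool.Agent.Results.MP_4a987e_co.Counter

/-- Energy: the sum of the absolute values of the adjacency eigenvalues, with multiplicity. -/
noncomputable def energy {n : ℕ} (G : SimpleGraph (Fin n)) [DecidableRel G.Adj] : ℝ :=
  ((G.adjMatrix ℝ).charpoly.roots.map fun x => |x|).sum

/-- The largest adjacency eigenvalue. -/
noncomputable def lam {n : ℕ} (G : SimpleGraph (Fin n)) [DecidableRel G.Adj] : ℝ :=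
  sSup (spectrum ℝ (G.adjMatrix ℝ))

def r (i j : Fin 17) : Prop := (i.val = 0 ∧ 1 ≤ j.val ∧ j.val ≤ 8) ∨ (1 ≤ i.val ∧ j.val = i.val + 8)

instance : DecidableRel r := fun i j => by unfold r; infer_instance

def G : SimpleGraph (Fin 17) where
  Adj i j := r i j ∨ r j i
  symm := ⟨fun _ _ => Or.symm⟩
  loopless := ⟨by decide⟩

instance : DecidableRel G.Adj := fun i j => by unfold G; infer_instance

def B2 : Matrix (Fin 17) (Fin 17) ℤ := fun i j =>
  if i = j then (if i.val = 0 then 8 else if i.val ≤ 8 then 2 else 1)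
  else if (i.val = 0 ∧ 8 < j.val) ∨ (j.val = 0 ∧ 8 < i.val) ∨
    (1 ≤ i.val ∧ i.val ≤ 8 ∧ 1 ≤ j.val ∧ j.val ≤ 8) then 1 else 0

def B3 : Matrix (Fin 17) (Fin 17) ℤ := fun i j =>
  if i.val = 0 then (if 1 ≤ j.val ∧ j.val ≤ 8 then 9 else 0)
  else if i.val ≤ 8 then (if j.val = 0 then 9 else if j.val ≤ 8 then 0 else
    if j.val = i.val + 8 then 2 else 1)
  else if j.val = 0 ∨ 8 < j.val then 0 else if i.val = j.val + 8 then 2 else 1

theorem h2 : G.adjMatrix ℤ * G.adjMatrix ℤ = B2 := by decide +kernel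
theorem h3 : B2 * G.adjMatrix ℤ = B3 := by decide +kernel
theorem h5 : B3 * B2 - 10 • B3 + 9 • G.adjMatrix ℤ = 0 := by decide +kernel
theorem t2 : B2.trace = 32 := by decide +kernel
theorem t4 : (B2 * B2).trace = 176 := by decide +kernel

theorem result : ¬ ∀ (n : ℕ) (G : SimpleGraph (Fin n)) [DecidableRel G.Adj], G.Connected →
    G.edgeFinset.Nonempty → energy G ≤ 2 * G.edgeFinset.card / √(lam G) := by
  intro h
  have h0 := h 17 G (by decide +kernel) (by decide +kernel)
  have hA := H31.Spec.herm G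
  have e2 : G.adjMatrix ℤ ^ 2 = B2 := by rw [sq, h2]
  have e3 : G.adjMatrix ℤ ^ 3 = B3 := by rw [pow_succ, e2, h3]
  have a : ∀ x ∈ spectrum ℝ (G.adjMatrix ℝ), |x| = 13 / 12 * x ^ 2 - 1 / 12 * x ^ 4 := by
    intro x hx
    have := H31.Spec.ann (X ^ 5 - 10 • X ^ 3 + 9 • X) (by
      have := congrArg (Int.castRingHom ℝ).mapMatrix h5
      rw [← e3, ← e2, ← pow_add, map_add, map_sub, map_nsmul, map_nsmul, map_pow, map_pow,
        map_zero, ← H31.Spec.adj_cast] at this
      simpa [-nsmul_eq_mul] using this) hx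
    have e : x * (x - 1) * (x + 1) * (x - 3) * (x + 3) = 0 := by
      simp at this; linear_combination this
    simp only [mul_eq_zero, sub_eq_zero, add_eq_zero_iff_eq_neg] at e
    rcases e with (((rfl | rfl) | rfl) | rfl) | rfl <;> norm_num
  have b : energy G = 20 := by
    rw [energy, H31.Spec.sum_roots hA, sum_congr rfl fun i _ =>
      a _ (hA.eigenvalues_mem_spectrum_real i), sum_sub_distrib, ← mul_sum, ← mul_sum,
      H31.Spec.tr_pow, H31.Spec.tr_pow, H31.Spec.adj_cast, H31.Spec.tr_cast, H31.Spec.tr_cast,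
      show 4 = 2 + 2 by rfl, pow_add, e2, t2, t4]
    norm_num
  have c : 3 ≤ lam G := by
    let v : Fin 17 → ℤ := fun i => if i.val = 0 then 8 else if i.val ≤ 8 then 3 else 1
    have hv : ∀ i, ∑ j, G.adjMatrix ℤ i j * v j = 3 * v i := by decide +kernel
    refine le_csSup (finite_real_spectrum).bddAbove (H31.Spec.mem_spec (fun i => v i)
      (fun e => by simpa [v] using congrFun e 0) (funext fun i => ?_))
    have := congrArg (Int.cast (R := ℝ)) (hv i)
    simpa [H31.Spec.adj_cast, mulVec, dotProduct] using this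
  have d : G.edgeFinset.card = 16 := by decide +kernel
  rw [b, d, le_div_iff₀ (Real.sqrt_pos.mpr (by linarith))] at h0
  have : (1.7 : ℝ) ≤ √(lam G) := Real.le_sqrt_of_sq_le (by linarith)
  push_cast at h0
  linarith

end Pool.Agent.Results.MP_4a987e_co.Counter
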